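import Pool.Agent.Helper74.BS.St
import Pool.Agent.Helper73.DC.St1

/-! Module AB of the project BS (MP_26f0da_lc): the abstract theorem with a non-constant number of levels. -/

set_option autoImplicit false

namespace Pool.Agent.Helper24.BS

open Pool.Agent.Helper73.DC
open Pool.Agent.Helper74.BS
open Finset
open scoped Classical

private theorem dspace_mono {α : Type} {L : Set (List α)} {S S' : ℕ → ℕ} {C' : ℕ}
    (h : ∀ n, S n ≤ C' * S' n + C') (hL : L ∈ DSPACE (α := α) S) : L ∈ DSPACE (α := α) S' := by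
  obtain ⟨M, C, hM⟩ := hL
  refine ⟨M, C * C' + C, fun w => ⟨(hM w).1, fun c hc t => ?_⟩⟩
  refine ((hM w).2 c hc t).trans_le ?_
  show C * S w.length + C ≤ (C * C' + C) * S' w.length + (C * C' + C)
  have h1 := Nat.mul_le_mul_left C (h w.length)
  have h2 : C * (C' * S' w.length + C') = C * C' * S' w.length + C * C' := by ring
  have h3 : (C * C' + C) * S' w.length = C * C' * S' w.length + C * S' w.length := by ring
  rw [h3]
  omega

/-- The context of the value of level `R`. -/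
private theorem e2_ctx {α : Type} [Fintype α] {A R c0 : VF α} {q : ℕ → VF α} (hA : E2 A) (hR : E2 R)
    (hc : E2 c0) (hq : ∀ j, E2 (q j)) :
    E2 (fun w v => A w (scons (v 0) (scons (R w v) (scons (c0 w v) (scons 0 (fun j => q j w v)))))) := by
  have := hA.subst (fun i => match i with
    | 0 => fun _ v => v 0
    | 1 => R
    | 2 => c0
    | 3 => fun _ _ => 0
    | i + 4 => q i) (by
      intro i
      match i with
      | 0 => exact E2.get 0
      | 1 => exact hR
      | 2 => exact hc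
      | 3 => exact E2.zero
      | i + 4 => exact hq i)
  have e : (fun w v => A w (scons (v 0) (scons (R w v) (scons (c0 w v) (scons 0 (fun j => q j w v))))))
      = (fun w v => A w (fun i => (match i with
    | 0 => fun _ v => v 0
    | 1 => R
    | 2 => c0
    | 3 => fun _ _ => 0
    | i + 4 => q i : VF α) w v)) := by
    funext w v
    congr 1
    funext i
    match i with
    | 0 => rfl
    | 1 => rfl
    | 2 => rfl
    | 3 => rfl
    | i + 4 => rfl
  rw [e]
  exact this

theorem hAB (hP0 : Helper83.PT.StP0) (hP10 : Helper83.PT.StP10) (hM7 : StM7) (hF6 : StF6) (hF7 : StF7) (hTOP : StTOP)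
    (hA1 : Helper83.PT.StA1) (hA2 : Helper83.PT.StA2) (hA3 : Helper83.PT.StA3) (hAK : StAK)
    (hL1 : StL1) (hL2 : StL2) (hL3 : StL3) (hL4 : StL4) (hL5 : StL5) : Pool.Agent.Helper74.BS.StAB := by
  intro α _ L1 L2 cl lf rs c0 gv Rf e0 cc hcl hrs hf0 hc0 hgv hRf bcl brs bf0 bc0 hin hout
  obtain ⟨P, O, hPO, hPO2⟩ := hM7
  obtain ⟨C, hC⟩ := hA1 (e0 + 1) (by omega)
  obtain ⟨S, d, hSd⟩ := hP0 (α := α)
  obtain ⟨hok, hsz, hdpt, hrle⟩ := hSd cl rs hcl hrs
  obtain ⟨A, hA, hAv⟩ := hF6 40 (fun w v => lf w (v 0)) (Helper83.PT.body cl rs) (by omega) hf0 hok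
  obtain ⟨R0, hR0⟩ := hA2.1 cc
  have hmono : ∀ n : ℕ, (n + 2) ^ e0 ≤ (n + 2) ^ (e0 + 1) := fun n =>
    Nat.pow_le_pow_right (by omega) (by omega)
  -- numbers for the prime
  have hq : ∀ n, 2 ≤ P (Helper83.PT.DD (e0 + 1) n * Helper83.PT.BB n) := fun n => (hPO2 _).1.two_le
  have hCn := fun n => hC n (P (Helper83.PT.DD (e0 + 1) n * Helper83.PT.BB n)) (hq n) (hPO2 _).2.2.1
  have hprm := hA3 (α := α) P O (e0 + 1) C (fun F hF => hPO F hF)
    (fun n => (hCn n).2.2.2.1.le) (fun n => (hCn n).2.1.le)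
  -- the last test
  let Vf : List α → ℕ := fun w =>
    (SP ((w.length + 2) ^ (e0 + 1)) (kkk w.length) (cl w) (rs w))^[R0 * Rf w.length] (lf w) (c0 w)
  refine ⟨{w | Vf w ≠ 0 ∧ gv w (Vf w - 1)}, ?_, ?_, ?_⟩
  · -- space
    let C2 : ℕ → ℕ := fun n => 2 * (40 * C * (R0 * Rf n + 1) + C + (2 + 3 * S + C * d) * (R0 * Rf n + 1))
    have hRE : E2 (α := α) (fun w _ => R0 * Rf w.length) := (E2.const R0).mul hRf
    have hR1 : E2 (α := α) (fun w _ => R0 * Rf w.length + 1) := hRE.succ
    have hC2E : E2 (α := α) (fun w _ => C2 w.length) :=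
      (E2.const 2).mul ((((E2.const (40 * C)).mul hR1).add (E2.const C)).add ((E2.const (2 + 3 * S + C * d)).mul hR1))
    -- the E2 function
    have hval : E2 (fun w v => A w (scons (v 0) (scons (R0 * Rf w.length) (scons (c0 w)
        (scons 0 (fun j => Helper83.PT.prm P O (e0 + 1) C w.length (v 0) j)))))) :=
      e2_ctx (R := fun w _ => R0 * Rf w.length) (c0 := fun w _ => c0 w)
        (q := fun j w v => Helper83.PT.prm P O (e0 + 1) C w.length (v 0) j) hA hRE hc0 hprm
    obtain ⟨hcmp, hlog, hite⟩ := hL2 (α := α)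
    have hpred : E2 (fun w v => A w (scons (v 0) (scons (R0 * Rf w.length) (scons (c0 w)
        (scons 0 (fun j => Helper83.PT.prm P O (e0 + 1) C w.length (v 0) j))))) - 1) :=
      (hL1 _ _ hval (E2.const 1)).1
    have hgE : E2P (fun w v => gv w (A w (scons (v 0) (scons (R0 * Rf w.length) (scons (c0 w)
        (scons 0 (fun j => Helper83.PT.prm P O (e0 + 1) C w.length (v 0) j))))) - 1)) := by
      have h := E2.sub1 hgv hpred
      exact h
    have hne : E2P (fun w v => ¬ A w (scons (v 0) (scons (R0 * Rf w.length) (scons (c0 w)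
        (scons 0 (fun j => Helper83.PT.prm P O (e0 + 1) C w.length (v 0) j))))) = 0) :=
      (hlog _ _ (hcmp _ _ hval E2.zero).2.2 hgE).1
    have hand := (hlog _ _ hne hgE).2.1
    have hF : E2 (fun w v => if ¬ A w (scons (v 0) (scons (R0 * Rf w.length) (scons (c0 w)
        (scons 0 (fun j => Helper83.PT.prm P O (e0 + 1) C w.length (v 0) j))))) = 0 ∧
        gv w (A w (scons (v 0) (scons (R0 * Rf w.length) (scons (c0 w)
        (scons 0 (fun j => Helper83.PT.prm P O (e0 + 1) C w.length (v 0) j))))) - 1) then 1 else 0) := by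
      unfold E2P at hand
      convert hand
    have htop := hTOP _ C2 {w | Vf w ≠ 0 ∧ gv w (Vf w - 1)} hF hC2E ?_
    · refine dspace_mono (C' := 2 * (40 * C * (R0 + 1) + C + (2 + 3 * S + C * d) * (R0 + 1)) + 1) (fun n => ?_) htop
      show (C2 n + 1) * Nat.log 2 (n + 2) ≤ _
      have h1 : R0 * Rf n + 1 ≤ (R0 + 1) * (Rf n + 1) := by nlinarith
      have h2 : C2 n + 1 ≤ (2 * (40 * C * (R0 + 1) + C + (2 + 3 * S + C * d) * (R0 + 1)) + 1) * (Rf n + 1) := by
        show 2 * (40 * C * (R0 * Rf n + 1) + C + (2 + 3 * S + C * d) * (R0 * Rf n + 1)) + 1 ≤ _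
        have h3 := Nat.mul_le_mul_left (40 * C) h1
        have h4 := Nat.mul_le_mul_left (2 + 3 * S + C * d) h1
        have h5 : C ≤ C * (Rf n + 1) := Nat.le_mul_of_pos_right _ (by omega)
        calc 2 * (40 * C * (R0 * Rf n + 1) + C + (2 + 3 * S + C * d) * (R0 * Rf n + 1)) + 1
            ≤ 2 * (40 * C * ((R0 + 1) * (Rf n + 1)) + C * (Rf n + 1) + (2 + 3 * S + C * d) * ((R0 + 1) * (Rf n + 1)))
              + (Rf n + 1) := by omega
          _ = _ := by ring
      calc (C2 n + 1) * Nat.log 2 (n + 2)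
          ≤ ((2 * (40 * C * (R0 + 1) + C + (2 + 3 * S + C * d) * (R0 + 1)) + 1) * (Rf n + 1)) * Nat.log 2 (n + 2) :=
            Nat.mul_le_mul_right _ h2
        _ = (2 * (40 * C * (R0 + 1) + C + (2 + 3 * S + C * d) * (R0 + 1)) + 1) * ((Rf n + 1) * Nat.log 2 (n + 2)) := by
            ring
        _ ≤ _ := Nat.le_add_right _ _
    intro w
    -- correctness
    obtain ⟨a1, a2, a3, a4, a5, a6, a7⟩ := hCn w.length
    set n := w.length with hn
    set R : ℕ := R0 * Rf n with hR
    have hC2n : C2 n = 2 * (40 * C * (R + 1) + C + (2 + 3 * S + C * d) * (R + 1)) := rfl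
    set N : ℕ := (n + 2) ^ C2 n with hN
    set p : ℕ → ℕ := Helper83.PT.prm P O (e0 + 1) C n N with hp
    have hpow : ∀ K m, 2 * K ≤ C2 n → m ≤ lam n * K → 2 ^ m ≤ N := by
      intro K m hk hm
      calc 2 ^ m ≤ 2 ^ (lam n * K) := Nat.pow_le_pow_right (by omega) hm
        _ = (2 ^ lam n) ^ K := pow_mul _ _ _
        _ ≤ ((n + 2) ^ 2) ^ K := Nat.pow_le_pow_left a7 _
        _ = (n + 2) ^ (2 * K) := (pow_mul _ _ _).symm
        _ ≤ (n + 2) ^ C2 n := Nat.pow_le_pow_right (by omega) hk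
    have hl1 : 1 ≤ lam n := by
      unfold lam
      omega
    have hP2 := hPO2 (Helper83.PT.DD (e0 + 1) n * Helper83.PT.BB n)
    have p1N : P (Helper83.PT.DD (e0 + 1) n * Helper83.PT.BB n) ^ (3 * Helper83.PT.DD (e0 + 1) n) ≤ N := by
      refine a6.trans (hpow C _ (by rw [hC2n]; omega) ?_)
      apply le_of_eq
      ring
    have hp1 : p 1 = P (Helper83.PT.DD (e0 + 1) n * Helper83.PT.BB n) ^ (3 * Helper83.PT.DD (e0 + 1) n) := by
      show pw N (P (Helper83.PT.DD (e0 + 1) n * Helper83.PT.BB n)) (3 * Helper83.PT.DD (e0 + 1) n) = _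
      unfold pw
      exact min_eq_left (by omega)
    have hBB : 2 ≤ Helper83.PT.BB n := by
      unfold Helper83.PT.BB
      rw [pow_succ]
      have : 1 ≤ 2 ^ lll n := Nat.one_le_two_pow
      omega
    have hDD : 1 ≤ Helper83.PT.DD (e0 + 1) n := by
      unfold Helper83.PT.DD
      exact Nat.le_add_left _ _
    have hBP : Helper83.PT.BB n ≤ P (Helper83.PT.DD (e0 + 1) n * Helper83.PT.BB n) := by
      have h1 : Helper83.PT.BB n ≤ Helper83.PT.DD (e0 + 1) n * Helper83.PT.BB n := Nat.le_mul_of_pos_left _ (by omega)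
      have h2 := hP2.2.1
      omega
    have hPrm : Helper83.PT.Prm cl rs w p := by
      refine ⟨fun x => (bcl w x).trans_le (hmono n), fun x r => (brs w x r).trans_le (hmono n), ?_, hBB, rfl,
        a1, a2, hP2.1, hBP, hP2.2.1, a3, hP2.2.2.2.2.1, hP2.2.2.2.2.2, hp1, rfl, rfl, a4,
        le_rfl, le_rfl, a5⟩
      show (n + 2) ^ (e0 + 1) + 1 < (n + 2) ^ (e0 + 1) + 2
      omega
    have hx : c0 w < p 3 := (bc0 w).trans_le (hmono n)
    have h35 : p 3 < p 5 := by
      have h1 : p 3 + 1 < p 2 := hPrm.hD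
      have h2 : p 2 ≤ p 2 ^ 5 := Nat.le_self_pow (by omega) _
      have h3 := hPrm.hM0
      omega
    have h50 : p 5 < p 0 := hPrm.hQM
    have hp00 : 0 < p 0 := by omega
    have hp1pos : 0 < p 1 := by
      rw [hp1]
      exact pow_pos (by have := hq n; omega) _
    have hX : p 0 = 2 ^ (C * lam n) := rfl
    have hN2 : (p 0) ^ (40 * (R + 1)) ≤ N := by
      rw [hX, ← pow_mul]
      refine hpow (40 * C * (R + 1)) _ (by rw [hC2n]; omega) ?_
      apply le_of_eq
      ring
    have hrl : (Helper83.PT.body cl rs).rle w p (p 0) := by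
      apply hrle w p (p 0) (by omega) ?_ (by omega) hPrm.hbM.le ?_
      · have h1 : p 4 < 2 ^ p 4 := Nat.lt_two_pow_self
        have h2 : p 5 = p 13 ^ p 4 := hPrm.hQ
        have h3 : 2 ^ p 4 ≤ p 13 ^ p 4 := Nat.pow_le_pow_left hPrm.hB _
        omega
      · have h1 : p 12 ^ (p 11 + 3) ≤ p 0 := hPrm.hBM
        have h2 : p 12 ≤ p 12 ^ (p 11 + 3) := Nat.le_self_pow (by omega) _
        have h3 := hPrm.hBh
        omega
    have hTot : ∀ r ≤ R, Tot w p (Helper83.PT.body cl rs) r ≤ N := by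
      intro r hr
      have h1 := hF7 w p (Helper83.PT.body cl rs) (p 0) (by omega) hrl r
      rw [hsz, hdpt] at h1
      have h2 : 3 * (3 * (S * p 0 ^ d)) ^ r ≤ N := by
        have h3 : 3 * (S * p 0 ^ d) ≤ 2 ^ (3 * S + C * lam n * d) := by
          rw [hX, ← pow_mul, pow_add, ← mul_assoc]
          exact Nat.mul_le_mul_right _ Nat.lt_two_pow_self.le
        have h4 : (3 * (S * p 0 ^ d)) ^ r ≤ 2 ^ ((3 * S + C * lam n * d) * (R + 1)) := by
          rw [pow_mul]
          refine (Nat.pow_le_pow_left h3 r).trans (Nat.pow_le_pow_right ?_ (by omega))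
          exact Nat.one_le_two_pow
        have h5 : 3 * (3 * (S * p 0 ^ d)) ^ r ≤ 2 ^ (2 + (3 * S + C * lam n * d) * (R + 1)) := by
          rw [pow_add]
          exact Nat.mul_le_mul (by norm_num) h4
        refine h5.trans (hpow ((2 + 3 * S + C * d) * (R + 1)) _ (by rw [hC2n]; omega) ?_)
        have h6 : 2 ≤ lam n * (2 * (R + 1)) := by nlinarith
        have h7 : 3 * S * (R + 1) ≤ lam n * (3 * S * (R + 1)) := Nat.le_mul_of_pos_left _ (by omega)
        calc 2 + (3 * S + C * lam n * d) * (R + 1)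
            = 2 + 3 * S * (R + 1) + lam n * (C * d * (R + 1)) := by ring
          _ ≤ lam n * (2 * (R + 1)) + lam n * (3 * S * (R + 1)) + lam n * (C * d * (R + 1)) := by omega
          _ = lam n * ((2 + 3 * S + C * d) * (R + 1)) := by ring
      omega
    have hv := hAv w p N R (c0 w) 0 hp00 (by omega) hp1pos (by rw [hp1]; exact p1N) hN2 hTot
    have h10 := hP10 cl rs w p (lf w) (fun w v => lf w (v 0)) hPrm
      (fun x => ((bf0 w x).trans_le (hmono n)).trans (by have := hPrm.hD; show p 3 < p 2; omega))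
      (fun x => rfl) R (c0 w) 0 hx hp1pos
    rw [h10] at hv
    have hVf : A w (scons N (scons R (scons (c0 w) (scons 0 p)))) = Vf w := hv
    have hgoal : (if ¬ A w (scons N (scons R (scons (c0 w) (scons 0 p)))) = 0 ∧
        gv w (A w (scons N (scons R (scons (c0 w) (scons 0 p)))) - 1) then 1 else 0) ≠ 0 ↔
        w ∈ {w | Vf w ≠ 0 ∧ gv w (Vf w - 1)} := by
      rw [hVf]
      by_cases h : Vf w ≠ 0 ∧ gv w (Vf w - 1)
      · rw [if_pos h]
        exact ⟨fun _ => h, fun _ => one_ne_zero⟩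
      · rw [if_neg h]
        exact ⟨fun h' => absurd rfl h', fun h' => absurd h' h⟩
    exact hgoal
  · -- completeness
    intro w hw
    obtain ⟨r, TH, hTH, hg, hE⟩ := hin w hw
    have hTH2 : TH ≤ (2 ^ eee w.length) ^ R0 := hTH.trans (hR0 w.length).le
    have h := (hAK (lf w) (cl w) (rs w) ((w.length + 2) ^ (e0 + 1)) (kkk w.length) (2 ^ eee w.length) TH R0
      (fun x => ⟨(bcl w x).trans_le (hmono _), fun r => (brs w x r).trans_le (hmono _)⟩) le_rfl hTH2
      (Rf w.length) (c0 w) r ((bc0 w).trans_le (hmono _))).1 hE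
    have hV : Vf w = r + 1 := h
    refine ⟨?_, ?_⟩
    · rw [hV]
      omega
    · rw [hV]
      exact hg
  · -- soundness
    rintro w ⟨hw1, hw2⟩
    have h := (hAK (lf w) (cl w) (rs w) ((w.length + 2) ^ (e0 + 1)) (kkk w.length) (2 ^ eee w.length) 0 R0
      (fun x => ⟨(bcl w x).trans_le (hmono _), fun r => (brs w x r).trans_le (hmono _)⟩) le_rfl (Nat.zero_le _)
      (Rf w.length) (c0 w) (Vf w - 1) ((bc0 w).trans_le (hmono _))).2
    have hV : Vf w = Vf w - 1 + 1 := by omega
    obtain ⟨m, n, hE⟩ := h hV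
    exact hout w _ m n hE hw2

end Pool.Agent.Helper24.BS
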